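import Pool.Agent.helper82.WH.Sem
import Pool.Agent.helper31.IA.Defs

/-!
# W head: the head functions of a cell

`HC` holds the constants of a cell (numbers `(a - b) / 2^40`), `headFn` the head functions.
-/

namespace Pool.Agent.helper82.WH

open Complex Pool.Agent.helper31.EQ.W Pool.Agent.helper63.EQC
open scoped ComplexConjugate

/-- The real number `(a - b) / 2^40`. -/
structure RC where
  a : Nat
  b : Nat

def RC.z (c : RC) : Pool.Agent.helper31.IA.Z := ⟨c.a, c.b, 0, 0⟩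

noncomputable def RC.r (c : RC) : ℝ := ((c.a : ℝ) - c.b) / 2 ^ 40

theorem RC.z_val (c : RC) : c.z.val = (c.r : ℂ) := by
  simp [RC.z, RC.r, Pool.Agent.helper31.IA.Z.val]

/-- The constants of a cell. -/
structure HC where
  ec : RC
  kc : RC
  q00 : RC
  q01 : RC
  q02 : RC
  q10 : RC
  q11 : RC
  q12 : RC
  q20 : RC
  q30 : RC
  h00 : RC
  h01 : RC
  h02 : RC
  h10 : RC
  h11 : RC
  h12 : RC
  h20 : RC
  h21 : RC
  h22 : RC
  h30 : RC
  h40 : RC
  b0 : RC
  be : RC
  bk : RC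
  b1 : RC
  b2 : RC
  s2 : RC

noncomputable section

/-- `y0 = exp (-p)` -/
def hy (p : ℂ) : ℂ := exp (-p)

/-- `z = C - y0` -/
def hz (κ : ℝ) (p : ℂ) : ℂ := (Real.cosh κ : ℂ) - hy p

/-- `W0 = C + z = 2C - y0` -/
def hW (κ : ℝ) (p : ℂ) : ℂ := (Real.cosh κ : ℂ) + hz κ p

/-- `u = C - (y0 + 1/y0)/2` -/
def hu (κ : ℝ) (p : ℂ) : ℂ := (Real.cosh κ : ℂ) - (hy p + exp p) * (1 / 2)

/-- `v2 = -2 y0 u` -/
def hv (κ : ℝ) (p : ℂ) : ℂ := hy p * hu κ p * (-2)

variable (H : HC) (e κ : ℝ)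

/-- coefficient `a1 (e - ec) + a2 (κ² - kc) + a0` -/
def hco (a0 a1 a2 : RC) : ℝ := a1.r * (e - H.ec.r) + a2.r * (κ * κ - H.kc.r) + a0.r

/-- `Q` as a polynomial in `z` -/
def hQ (z : ℂ) : ℂ :=
  (((H.q30.r : ℂ) * z + (H.q20.r : ℂ)) * z + (hco H e κ H.q10 H.q11 H.q12 : ℂ)) * z +
    (hco H e κ H.q00 H.q01 H.q02 : ℂ)

/-- `h` as a polynomial in `z` -/
def hh (z : ℂ) : ℂ :=
  ((((H.h40.r : ℂ) * z + (H.h30.r : ℂ)) * z + (hco H e κ H.h20 H.h21 H.h22 : ℂ)) * z +
    (hco H e κ H.h10 H.h11 H.h12 : ℂ)) * z + (hco H e κ H.h00 H.h01 H.h02 : ℂ)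

/-- `g` as a polynomial in `u` -/
def hg (u : ℂ) : ℂ :=
  ((H.b2.r : ℂ) * u + (H.b1.r : ℂ)) * u + (hco H e κ H.b0 H.be H.bk : ℂ)

def hc1 (p : ℂ) : ℂ := hW κ p + hv κ p * hv κ p * (hz κ p * hQ H e κ (hz κ p))

def hr1 (p : ℂ) : ℂ := hg H e κ (hu κ p) * hu κ p

theorem hy_conj (p : ℂ) : hy (conj p) = conj (hy p) := by
  simp only [hy, ← exp_conj, map_neg]

theorem hz_conj (p : ℂ) : hz κ (conj p) = conj (hz κ p) := by
  simp only [hz, hy_conj, map_sub, conj_ofReal]

theorem hW_conj (p : ℂ) : hW κ (conj p) = conj (hW κ p) := by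
  simp only [hW, hz_conj, map_add, conj_ofReal]

theorem hu_conj (p : ℂ) : hu κ (conj p) = conj (hu κ p) := by
  simp only [hu, hy_conj, map_sub, map_add, map_mul, conj_ofReal, ← exp_conj, map_div₀, map_one,
    Complex.conj_ofNat]

theorem hv_conj (p : ℂ) : hv κ (conj p) = conj (hv κ p) := by
  simp only [hv, hy_conj, hu_conj, map_mul, map_neg, Complex.conj_ofNat]

theorem hQ_conj (z : ℂ) : hQ H e κ (conj z) = conj (hQ H e κ z) := by
  simp only [hQ, map_add, map_mul, conj_ofReal]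

theorem hh_conj (z : ℂ) : hh H e κ (conj z) = conj (hh H e κ z) := by
  simp only [hh, map_add, map_mul, conj_ofReal]

theorem hg_conj (z : ℂ) : hg H e κ (conj z) = conj (hg H e κ z) := by
  simp only [hg, map_add, map_mul, conj_ofReal]

theorem hy_diff : Differentiable ℂ hy := by
  unfold hy; fun_prop

theorem hz_diff : Differentiable ℂ (hz κ) := by
  unfold hz
  have := hy_diff
  fun_prop

theorem hW_diff : Differentiable ℂ (hW κ) := by
  unfold hW
  have := hz_diff κ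
  fun_prop

theorem hu_diff : Differentiable ℂ (hu κ) := by
  unfold hu
  have := hy_diff
  fun_prop

theorem hv_diff : Differentiable ℂ (hv κ) := by
  unfold hv
  have := hy_diff
  have := hu_diff κ
  fun_prop

theorem hQ_diff : Differentiable ℂ (hQ H e κ) := by
  unfold hQ; fun_prop

theorem hh_diff : Differentiable ℂ (hh H e κ) := by
  unfold hh; fun_prop

theorem hg_diff : Differentiable ℂ (hg H e κ) := by
  unfold hg; fun_prop

/-- the head functions of a cell -/
def headFn : HeadFn where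
  c1 := hc1 H e κ
  r1 := hr1 H e κ
  h := fun p => hh H e κ (hz κ p)
  c1_diff := by
    unfold hc1
    have h1 := hz_diff κ
    have h2 := hW_diff κ
    have h3 := hv_diff κ
    have h4 := (hQ_diff H e κ).comp h1
    exact h2.add ((h3.mul h3).mul (h1.mul h4))
  r1_diff := by
    unfold hr1
    have h1 := hu_diff κ
    have h4 := (hg_diff H e κ).comp h1
    exact h4.mul h1
  h_diff := (hh_diff H e κ).comp (hz_diff κ)
  c1_conj := fun p => by
    simp only [hc1, hW_conj, hv_conj, hz_conj, hQ_conj, map_add, map_mul]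
  r1_conj := fun p => by
    simp only [hr1, hu_conj, hg_conj, map_mul]
  h_conj := fun p => by
    simp only [hz_conj, hh_conj]

end

end Pool.Agent.helper82.WH
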