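import Pool.Agent.helper82.WH.Const

/-!
Generated: straight line programs of the W head, compiled forms and meaning.
-/

namespace Pool.Agent.helper82.WH

open Pool.Agent.helper31.IA (Z Op Asserts)
open Pool.Agent.helper31.IC (Ops runG)
open Pool.Agent.helper82.QB (opsQ)

def pH (H : HC) (B : BC) : List Op := [
  .const ⟨1099511627776, 0, 0, 0⟩,
  .inv 1,
  .scale ⟨2199023255552, 0, 0, 0⟩ 0,
  .exp 4,
  .neg 5,
  .exp 0,
  .add 2 0,
  .scale ⟨549755813888, 0, 0, 0⟩ 0,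
  .sub 0 7,
  .mul 10 10,
  .scale B.B0.z 0,
  .const B.A0,
  .add 1 0,
  .const B.D0.z,
  .sub 0 16,
  .mul 2 0,
  .exp 0,
  .sub 9 0,
  .add 10 0,
  .neg 3,
  .exp 0,
  .add 4 0,
  .scale ⟨549755813888, 0, 0, 0⟩ 0,
  .sub 15 0,
  .const H.ec.z,
  .sub 25 0,
  .const H.kc.z,
  .sub 17 0,
  .const H.q30.z,
  .const H.q20.z,
  .mul 1 12,
  .add 0 1,
  .const H.q10.z,
  .scale H.q11.z 7,
  .scale H.q12.z 6,
  .add 1 0,
  .add 0 3,
  .mul 5 19,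
  .add 0 1,
  .const H.q00.z,
  .scale H.q01.z 14,
  .scale H.q02.z 13,
  .add 1 0,
  .add 0 3,
  .mul 5 26,
  .add 0 1,
  .mul 29 22,
  .scale ⟨0, 2199023255552, 0, 0⟩ 0,
  .mul 0 0,
  .mul 31 3,
  .mul 1 0,
  .add 32 0,
  .const H.h40.z,
  .const H.h30.z,
  .mul 1 36,
  .add 0 1,
  .const H.h20.z,
  .scale H.h21.z 31,
  .scale H.h22.z 30,
  .add 1 0,
  .add 0 3,
  .mul 5 43,
  .add 0 1,
  .const H.h10.z,
  .scale H.h11.z 38,
  .scale H.h12.z 37,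
  .add 1 0,
  .add 0 3,
  .mul 5 50,
  .add 0 1,
  .const H.h00.z,
  .scale H.h01.z 45,
  .scale H.h02.z 44,
  .add 1 0,
  .add 0 3,
  .mul 5 57,
  .add 0 1,
  .scale H.b2.z 53,
  .const H.b1.z,
  .add 1 0,
  .mul 0 56,
  .scale H.be.z 55,
  .scale H.bk.z 54,
  .add 1 0,
  .const H.b0.z,
  .add 1 0,
  .add 5 0,
  .mul 0 63,
  .mul 88 89,
  .scale ⟨549755813888, 0, 0, 0⟩ 0,
  .exp 0,
  .neg 1,
  .exp 0,
  .add 2 0,
  .scale ⟨549755813888, 0, 0, 0⟩ 0,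
  .log 0,
  .mul 96 80,
  .scale ⟨549755813888, 0, 0, 0⟩ 0,
  .exp 0,
  .neg 1,
  .exp 0,
  .add 2 0,
  .scale ⟨549755813888, 0, 0, 0⟩ 0,
  .log 0,
  .sub 8 0,
  .mul 102 0,
  .mul 89 89,
  .scale ⟨4398046511104, 0, 0, 0⟩ 83,
  .mul 1 0,
  .mul 0 59,
  .inv 23,
  .mul 1 0,
  .lt 0 10995115253,
  .const ⟨1374389534720, 0, 0, 0⟩,
  .sub 26 0,
  .lt 0 109841211614,
  .scale ⟨549755813888, 0, 0, 0⟩ 114,
  .mul 0 97,
  .add 115 0,
  .scale ⟨2199023255552, 0, 0, 0⟩ 98,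
  .mul 0 41,
  .mul 2 2,
  .inv 0,
  .mul 2 0,
  .sub 0 121,
  .lt 0 87960929198]

set_option maxRecDepth 100000 in
def cpH (H : HC) (B : BC) {α : Type} (cst : Z → α) (add sub mul : α → α → α) (scale : Z → α → α)
    (neg inv exp log : α → α) (ok : α → Bool) (isPos : Nat → α → Bool) (isLt : α → Nat → Bool) :
    List α → Bool
  | [e, k, x] =>
  let v0 := cst ⟨1099511627776, 0, 0, 0⟩; ok v0 && (
  let v1 := inv e; ok v1 && (
  let v2 := scale ⟨2199023255552, 0, 0, 0⟩ v1; ok v2 && (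
  let v3 := exp k; ok v3 && (
  let v4 := neg k; ok v4 && (
  let v5 := exp v4; ok v5 && (
  let v6 := add v3 v5; ok v6 && (
  let v7 := scale ⟨549755813888, 0, 0, 0⟩ v6; ok v7 && (
  let v8 := sub v7 v0; ok v8 && (
  let v9 := mul k k; ok v9 && (
  let v10 := scale B.B0.z v9; ok v10 && (
  let v11 := cst B.A0; ok v11 && (
  let v12 := add v10 v11; ok v12 && (
  let v13 := cst B.D0.z; ok v13 && (
  let v14 := sub v13 x; ok v14 && (
  let v15 := mul v12 v14; ok v15 && (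
  let v16 := exp v15; ok v16 && (
  let v17 := sub v7 v16; ok v17 && (
  let v18 := add v7 v17; ok v18 && (
  let v19 := neg v15; ok v19 && (
  let v20 := exp v19; ok v20 && (
  let v21 := add v16 v20; ok v21 && (
  let v22 := scale ⟨549755813888, 0, 0, 0⟩ v21; ok v22 && (
  let v23 := sub v7 v22; ok v23 && (
  let v24 := cst H.ec.z; ok v24 && (
  let v25 := sub e v24; ok v25 && (
  let v26 := cst H.kc.z; ok v26 && (
  let v27 := sub v9 v26; ok v27 && (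
  let v28 := cst H.q30.z; ok v28 && (
  let v29 := cst H.q20.z; ok v29 && (
  let v30 := mul v28 v17; ok v30 && (
  let v31 := add v30 v29; ok v31 && (
  let v32 := cst H.q10.z; ok v32 && (
  let v33 := scale H.q11.z v25; ok v33 && (
  let v34 := scale H.q12.z v27; ok v34 && (
  let v35 := add v33 v34; ok v35 && (
  let v36 := add v35 v32; ok v36 && (
  let v37 := mul v31 v17; ok v37 && (
  let v38 := add v37 v36; ok v38 && (
  let v39 := cst H.q00.z; ok v39 && (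
  let v40 := scale H.q01.z v25; ok v40 && (
  let v41 := scale H.q02.z v27; ok v41 && (
  let v42 := add v40 v41; ok v42 && (
  let v43 := add v42 v39; ok v43 && (
  let v44 := mul v38 v17; ok v44 && (
  let v45 := add v44 v43; ok v45 && (
  let v46 := mul v16 v23; ok v46 && (
  let v47 := scale ⟨0, 2199023255552, 0, 0⟩ v46; ok v47 && (
  let v48 := mul v47 v47; ok v48 && (
  let v49 := mul v17 v45; ok v49 && (
  let v50 := mul v48 v49; ok v50 && (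
  let v51 := add v18 v50; ok v51 && (
  let v52 := cst H.h40.z; ok v52 && (
  let v53 := cst H.h30.z; ok v53 && (
  let v54 := mul v52 v17; ok v54 && (
  let v55 := add v54 v53; ok v55 && (
  let v56 := cst H.h20.z; ok v56 && (
  let v57 := scale H.h21.z v25; ok v57 && (
  let v58 := scale H.h22.z v27; ok v58 && (
  let v59 := add v57 v58; ok v59 && (
  let v60 := add v59 v56; ok v60 && (
  let v61 := mul v55 v17; ok v61 && (
  let v62 := add v61 v60; ok v62 && (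
  let v63 := cst H.h10.z; ok v63 && (
  let v64 := scale H.h11.z v25; ok v64 && (
  let v65 := scale H.h12.z v27; ok v65 && (
  let v66 := add v64 v65; ok v66 && (
  let v67 := add v66 v63; ok v67 && (
  let v68 := mul v62 v17; ok v68 && (
  let v69 := add v68 v67; ok v69 && (
  let v70 := cst H.h00.z; ok v70 && (
  let v71 := scale H.h01.z v25; ok v71 && (
  let v72 := scale H.h02.z v27; ok v72 && (
  let v73 := add v71 v72; ok v73 && (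
  let v74 := add v73 v70; ok v74 && (
  let v75 := mul v69 v17; ok v75 && (
  let v76 := add v75 v74; ok v76 && (
  let v77 := scale H.b2.z v23; ok v77 && (
  let v78 := cst H.b1.z; ok v78 && (
  let v79 := add v77 v78; ok v79 && (
  let v80 := mul v79 v23; ok v80 && (
  let v81 := scale H.be.z v25; ok v81 && (
  let v82 := scale H.bk.z v27; ok v82 && (
  let v83 := add v81 v82; ok v83 && (
  let v84 := cst H.b0.z; ok v84 && (
  let v85 := add v83 v84; ok v85 && (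
  let v86 := add v80 v85; ok v86 && (
  let v87 := mul v86 v23; ok v87 && (
  let v88 := mul e k; ok v88 && (
  let v89 := scale ⟨549755813888, 0, 0, 0⟩ v88; ok v89 && (
  let v90 := exp v89; ok v90 && (
  let v91 := neg v89; ok v91 && (
  let v92 := exp v91; ok v92 && (
  let v93 := add v90 v92; ok v93 && (
  let v94 := scale ⟨549755813888, 0, 0, 0⟩ v93; ok v94 && (
  let v95 := log v94; ok v95 && (
  let v96 := mul e v15; ok v96 && (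
  let v97 := scale ⟨549755813888, 0, 0, 0⟩ v96; ok v97 && (
  let v98 := exp v97; ok v98 && (
  let v99 := neg v97; ok v99 && (
  let v100 := exp v99; ok v100 && (
  let v101 := add v98 v100; ok v101 && (
  let v102 := scale ⟨549755813888, 0, 0, 0⟩ v101; ok v102 && (
  let v103 := log v102; ok v103 && (
  let v104 := sub v95 v103; ok v104 && (
  let v105 := mul v2 v104; ok v105 && (
  let v106 := mul v16 v16; ok v106 && (
  let v107 := scale ⟨4398046511104, 0, 0, 0⟩ v23; ok v107 && (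
  let v108 := mul v106 v107; ok v108 && (
  let v109 := mul v108 v49; ok v109 && (
  let v110 := inv v86; ok v110 && (
  let v111 := mul v109 v110; ok v111 && (
  isLt v111 10995115253 && (
  let v112 := cst ⟨1374389534720, 0, 0, 0⟩; ok v112 && (
  let v113 := sub v86 v112; ok v113 && (
  isLt v113 109841211614 && (
  let v114 := scale ⟨549755813888, 0, 0, 0⟩ e; ok v114 && (
  let v115 := mul v114 v17; ok v115 && (
  let v116 := add v0 v115; ok v116 && (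
  let v117 := scale ⟨2199023255552, 0, 0, 0⟩ v18; ok v117 && (
  let v118 := mul v117 v76; ok v118 && (
  let v119 := mul v116 v116; ok v119 && (
  let v120 := inv v119; ok v120 && (
  let v121 := mul v118 v120; ok v121 && (
  let v122 := sub v121 v0; ok v122 && (
  isLt v122 87960929198 && (
  true))))))))))))))))))))))))))))))))))))))))))))))))))))))))))))))))))))))))))))))))))))))))))))))))))))))))))))))))))))))))))))))
  | _ => false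

set_option maxRecDepth 1000000 in
theorem cpH_eq (H : HC) (B : BC) (O : Ops) (m : List O.α)
    (h : cpH H B O.cst O.add O.sub O.mul O.scale O.neg O.inv O.exp O.log O.ok O.isPos O.isLt m = true) :
    runG O 3 (pH H B) m = true := by
  match m, h with
  | [e, k, x], h => exact h

def qpH (H : HC) (B : BC) : List opsQ.α → Bool :=
  cpH H B opsQ.cst opsQ.add opsQ.sub opsQ.mul opsQ.scale opsQ.neg opsQ.inv opsQ.exp opsQ.log opsQ.ok
    opsQ.isPos opsQ.isLt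

theorem qpH_eq (H : HC) (B : BC) (m : List opsQ.α) (h : qpH H B m = true) : runG opsQ 3 (pH H B) m = true :=
  cpH_eq H B opsQ m h

theorem pH_spec (H : HC) (B : BC) {e k x : ℂ}
    (hyp : Asserts (pH H B) [e, k, x]) (Goal : Prop)
    (kont : ∀ twe ek emk C om kk mp y0 z W0 u de dk Q v2 c1 h g r1 hk lch hp l0 t0 bb : ℂ,
      e ≠ 0 →
      twe = e⁻¹ * 2 →
      ek = Complex.exp k →
      emk = Complex.exp (-k) →
      C = (ek + emk) * (1 / 2) →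
      om = C - 1 →
      kk = k * k →
      mp = ((kk * (B.B0.r : ℂ)) + B.A0.val) * ((B.D0.r : ℂ) - x) →
      y0 = Complex.exp mp →
      z = C - y0 →
      W0 = C + z →
      u = C - ((y0 + (Complex.exp (-mp))) * (1 / 2)) →
      de = e - (H.ec.r : ℂ) →
      dk = kk - (H.kc.r : ℂ) →
      Q = ((((((H.q30.r : ℂ) * z) + (H.q20.r : ℂ)) * z) + (((de * (H.q11.r : ℂ)) + (dk * (H.q12.r : ℂ))) + (H.q10.r : ℂ))) * z) + (((de * (H.q01.r : ℂ)) + (dk * (H.q02.r : ℂ))) + (H.q00.r : ℂ)) →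
      v2 = (y0 * u) * (-2) →
      c1 = W0 + ((v2 * v2) * (z * Q)) →
      h = ((((((((H.h40.r : ℂ) * z) + (H.h30.r : ℂ)) * z) + (((de * (H.h21.r : ℂ)) + (dk * (H.h22.r : ℂ))) + (H.h20.r : ℂ))) * z) + (((de * (H.h11.r : ℂ)) + (dk * (H.h12.r : ℂ))) + (H.h10.r : ℂ))) * z) + (((de * (H.h01.r : ℂ)) + (dk * (H.h02.r : ℂ))) + (H.h00.r : ℂ)) →
      g = (((u * (H.b2.r : ℂ)) + (H.b1.r : ℂ)) * u) + (((de * (H.be.r : ℂ)) + (dk * (H.bk.r : ℂ))) + (H.b0.r : ℂ)) →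
      r1 = g * u →
      hk = (e * k) * (1 / 2) →
      (((Complex.exp hk) + (Complex.exp (-hk))) * (1 / 2)) ∈ Complex.slitPlane →
      lch = Complex.log (((Complex.exp hk) + (Complex.exp (-hk))) * (1 / 2)) →
      hp = (e * mp) * (1 / 2) →
      (((Complex.exp hp) + (Complex.exp (-hp))) * (1 / 2)) ∈ Complex.slitPlane →
      l0 = Complex.log (((Complex.exp hp) + (Complex.exp (-hp))) * (1 / 2)) →
      t0 = twe * (lch - l0) →
      g ≠ 0 →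
      ‖(((y0 * y0) * (u * 4)) * (z * Q)) * g⁻¹‖ < 10995115253 / 1099511627776 →
      ‖g - (5 / 4)‖ < 54920605807 / 549755813888 →
      bb = 1 + ((e * (1 / 2)) * z) →
      (bb * bb) ≠ 0 →
      ‖(((W0 * 2) * h) * (bb * bb)⁻¹) - 1‖ < 43980464599 / 549755813888 → Goal) : Goal := by
  have hs0 := hyp (1 : ℂ) (spec_const 1099511627776 0 0 0 (by simp; norm_num))
  obtain ⟨hn1, hr1⟩ := hs0
  have hs1 := hr1 (e⁻¹ : ℂ) (rfl)
  obtain ⟨twe, hz2⟩ : ∃ v : ℂ, v = e⁻¹ * 2 := ⟨_, rfl⟩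
  have hs2 := hs1 twe (hz2.trans ((mul_comm _ _).trans (congrArg (· * _) (spec_const 2199023255552 0 0 0 (by simp; norm_num)))))
  obtain ⟨ek, hz3⟩ : ∃ v : ℂ, v = Complex.exp k := ⟨_, rfl⟩
  have hs3 := hs2 ek (hz3)
  have hs4 := hs3 (-k : ℂ) (rfl)
  obtain ⟨emk, hz5⟩ : ∃ v : ℂ, v = Complex.exp (-k) := ⟨_, rfl⟩
  have hs5 := hs4 emk (hz5)
  have hs6 := hs5 (ek + emk : ℂ) (rfl)
  obtain ⟨C, hz7⟩ : ∃ v : ℂ, v = (ek + emk) * (1 / 2) := ⟨_, rfl⟩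
  have hs7 := hs6 C (hz7.trans ((mul_comm _ _).trans (congrArg (· * _) (spec_const 549755813888 0 0 0 (by simp; norm_num)))))
  obtain ⟨om, hz8⟩ : ∃ v : ℂ, v = C - 1 := ⟨_, rfl⟩
  have hs8 := hs7 om (hz8)
  obtain ⟨kk, hz9⟩ : ∃ v : ℂ, v = k * k := ⟨_, rfl⟩
  have hs9 := hs8 kk (hz9)
  have hs10 := hs9 (kk * (B.B0.r : ℂ) : ℂ) ((mul_comm _ _).trans (congrArg (· * _) ((RC.z_val _).symm)))
  have hs11 := hs10 (B.A0.val : ℂ) ((rfl).symm)
  have hs12 := hs11 ((kk * (B.B0.r : ℂ)) + B.A0.val : ℂ) (rfl)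
  have hs13 := hs12 ((B.D0.r : ℂ) : ℂ) ((RC.z_val _).symm)
  have hs14 := hs13 ((B.D0.r : ℂ) - x : ℂ) (rfl)
  obtain ⟨mp, hz15⟩ : ∃ v : ℂ, v = ((kk * (B.B0.r : ℂ)) + B.A0.val) * ((B.D0.r : ℂ) - x) := ⟨_, rfl⟩
  have hs15 := hs14 mp (hz15)
  obtain ⟨y0, hz16⟩ : ∃ v : ℂ, v = Complex.exp mp := ⟨_, rfl⟩
  have hs16 := hs15 y0 (hz16)
  obtain ⟨z, hz17⟩ : ∃ v : ℂ, v = C - y0 := ⟨_, rfl⟩
  have hs17 := hs16 z (hz17)
  obtain ⟨W0, hz18⟩ : ∃ v : ℂ, v = C + z := ⟨_, rfl⟩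
  have hs18 := hs17 W0 (hz18)
  have hs19 := hs18 (-mp : ℂ) (rfl)
  have hs20 := hs19 (Complex.exp (-mp) : ℂ) (rfl)
  have hs21 := hs20 (y0 + (Complex.exp (-mp)) : ℂ) (rfl)
  have hs22 := hs21 ((y0 + (Complex.exp (-mp))) * (1 / 2) : ℂ) ((mul_comm _ _).trans (congrArg (· * _) (spec_const 549755813888 0 0 0 (by simp; norm_num))))
  obtain ⟨u, hz23⟩ : ∃ v : ℂ, v = C - ((y0 + (Complex.exp (-mp))) * (1 / 2)) := ⟨_, rfl⟩
  have hs23 := hs22 u (hz23)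
  have hs24 := hs23 ((H.ec.r : ℂ) : ℂ) ((RC.z_val _).symm)
  obtain ⟨de, hz25⟩ : ∃ v : ℂ, v = e - (H.ec.r : ℂ) := ⟨_, rfl⟩
  have hs25 := hs24 de (hz25)
  have hs26 := hs25 ((H.kc.r : ℂ) : ℂ) ((RC.z_val _).symm)
  obtain ⟨dk, hz27⟩ : ∃ v : ℂ, v = kk - (H.kc.r : ℂ) := ⟨_, rfl⟩
  have hs27 := hs26 dk (hz27)
  have hs28 := hs27 ((H.q30.r : ℂ) : ℂ) ((RC.z_val _).symm)
  have hs29 := hs28 ((H.q20.r : ℂ) : ℂ) ((RC.z_val _).symm)
  have hs30 := hs29 ((H.q30.r : ℂ) * z : ℂ) (rfl)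
  have hs31 := hs30 (((H.q30.r : ℂ) * z) + (H.q20.r : ℂ) : ℂ) (rfl)
  have hs32 := hs31 ((H.q10.r : ℂ) : ℂ) ((RC.z_val _).symm)
  have hs33 := hs32 (de * (H.q11.r : ℂ) : ℂ) ((mul_comm _ _).trans (congrArg (· * _) ((RC.z_val _).symm)))
  have hs34 := hs33 (dk * (H.q12.r : ℂ) : ℂ) ((mul_comm _ _).trans (congrArg (· * _) ((RC.z_val _).symm)))
  have hs35 := hs34 ((de * (H.q11.r : ℂ)) + (dk * (H.q12.r : ℂ)) : ℂ) (rfl)
  have hs36 := hs35 (((de * (H.q11.r : ℂ)) + (dk * (H.q12.r : ℂ))) + (H.q10.r : ℂ) : ℂ) (rfl)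
  have hs37 := hs36 ((((H.q30.r : ℂ) * z) + (H.q20.r : ℂ)) * z : ℂ) (rfl)
  have hs38 := hs37 (((((H.q30.r : ℂ) * z) + (H.q20.r : ℂ)) * z) + (((de * (H.q11.r : ℂ)) + (dk * (H.q12.r : ℂ))) + (H.q10.r : ℂ)) : ℂ) (rfl)
  have hs39 := hs38 ((H.q00.r : ℂ) : ℂ) ((RC.z_val _).symm)
  have hs40 := hs39 (de * (H.q01.r : ℂ) : ℂ) ((mul_comm _ _).trans (congrArg (· * _) ((RC.z_val _).symm)))
  have hs41 := hs40 (dk * (H.q02.r : ℂ) : ℂ) ((mul_comm _ _).trans (congrArg (· * _) ((RC.z_val _).symm)))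
  have hs42 := hs41 ((de * (H.q01.r : ℂ)) + (dk * (H.q02.r : ℂ)) : ℂ) (rfl)
  have hs43 := hs42 (((de * (H.q01.r : ℂ)) + (dk * (H.q02.r : ℂ))) + (H.q00.r : ℂ) : ℂ) (rfl)
  have hs44 := hs43 ((((((H.q30.r : ℂ) * z) + (H.q20.r : ℂ)) * z) + (((de * (H.q11.r : ℂ)) + (dk * (H.q12.r : ℂ))) + (H.q10.r : ℂ))) * z : ℂ) (rfl)
  obtain ⟨Q, hz45⟩ : ∃ v : ℂ, v = ((((((H.q30.r : ℂ) * z) + (H.q20.r : ℂ)) * z) + (((de * (H.q11.r : ℂ)) + (dk * (H.q12.r : ℂ))) + (H.q10.r : ℂ))) * z) + (((de * (H.q01.r : ℂ)) + (dk * (H.q02.r : ℂ))) + (H.q00.r : ℂ)) := ⟨_, rfl⟩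
  have hs45 := hs44 Q (hz45)
  have hs46 := hs45 (y0 * u : ℂ) (rfl)
  obtain ⟨v2, hz47⟩ : ∃ v : ℂ, v = (y0 * u) * (-2) := ⟨_, rfl⟩
  have hs47 := hs46 v2 (hz47.trans ((mul_comm _ _).trans (congrArg (· * _) (spec_const 0 2199023255552 0 0 (by simp; norm_num)))))
  have hs48 := hs47 (v2 * v2 : ℂ) (rfl)
  have hs49 := hs48 (z * Q : ℂ) (rfl)
  have hs50 := hs49 ((v2 * v2) * (z * Q) : ℂ) (rfl)
  obtain ⟨c1, hz51⟩ : ∃ v : ℂ, v = W0 + ((v2 * v2) * (z * Q)) := ⟨_, rfl⟩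
  have hs51 := hs50 c1 (hz51)
  have hs52 := hs51 ((H.h40.r : ℂ) : ℂ) ((RC.z_val _).symm)
  have hs53 := hs52 ((H.h30.r : ℂ) : ℂ) ((RC.z_val _).symm)
  have hs54 := hs53 ((H.h40.r : ℂ) * z : ℂ) (rfl)
  have hs55 := hs54 (((H.h40.r : ℂ) * z) + (H.h30.r : ℂ) : ℂ) (rfl)
  have hs56 := hs55 ((H.h20.r : ℂ) : ℂ) ((RC.z_val _).symm)
  have hs57 := hs56 (de * (H.h21.r : ℂ) : ℂ) ((mul_comm _ _).trans (congrArg (· * _) ((RC.z_val _).symm)))
  have hs58 := hs57 (dk * (H.h22.r : ℂ) : ℂ) ((mul_comm _ _).trans (congrArg (· * _) ((RC.z_val _).symm)))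
  have hs59 := hs58 ((de * (H.h21.r : ℂ)) + (dk * (H.h22.r : ℂ)) : ℂ) (rfl)
  have hs60 := hs59 (((de * (H.h21.r : ℂ)) + (dk * (H.h22.r : ℂ))) + (H.h20.r : ℂ) : ℂ) (rfl)
  have hs61 := hs60 ((((H.h40.r : ℂ) * z) + (H.h30.r : ℂ)) * z : ℂ) (rfl)
  have hs62 := hs61 (((((H.h40.r : ℂ) * z) + (H.h30.r : ℂ)) * z) + (((de * (H.h21.r : ℂ)) + (dk * (H.h22.r : ℂ))) + (H.h20.r : ℂ)) : ℂ) (rfl)
  have hs63 := hs62 ((H.h10.r : ℂ) : ℂ) ((RC.z_val _).symm)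
  have hs64 := hs63 (de * (H.h11.r : ℂ) : ℂ) ((mul_comm _ _).trans (congrArg (· * _) ((RC.z_val _).symm)))
  have hs65 := hs64 (dk * (H.h12.r : ℂ) : ℂ) ((mul_comm _ _).trans (congrArg (· * _) ((RC.z_val _).symm)))
  have hs66 := hs65 ((de * (H.h11.r : ℂ)) + (dk * (H.h12.r : ℂ)) : ℂ) (rfl)
  have hs67 := hs66 (((de * (H.h11.r : ℂ)) + (dk * (H.h12.r : ℂ))) + (H.h10.r : ℂ) : ℂ) (rfl)
  have hs68 := hs67 ((((((H.h40.r : ℂ) * z) + (H.h30.r : ℂ)) * z) + (((de * (H.h21.r : ℂ)) + (dk * (H.h22.r : ℂ))) + (H.h20.r : ℂ))) * z : ℂ) (rfl)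
  have hs69 := hs68 (((((((H.h40.r : ℂ) * z) + (H.h30.r : ℂ)) * z) + (((de * (H.h21.r : ℂ)) + (dk * (H.h22.r : ℂ))) + (H.h20.r : ℂ))) * z) + (((de * (H.h11.r : ℂ)) + (dk * (H.h12.r : ℂ))) + (H.h10.r : ℂ)) : ℂ) (rfl)
  have hs70 := hs69 ((H.h00.r : ℂ) : ℂ) ((RC.z_val _).symm)
  have hs71 := hs70 (de * (H.h01.r : ℂ) : ℂ) ((mul_comm _ _).trans (congrArg (· * _) ((RC.z_val _).symm)))
  have hs72 := hs71 (dk * (H.h02.r : ℂ) : ℂ) ((mul_comm _ _).trans (congrArg (· * _) ((RC.z_val _).symm)))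
  have hs73 := hs72 ((de * (H.h01.r : ℂ)) + (dk * (H.h02.r : ℂ)) : ℂ) (rfl)
  have hs74 := hs73 (((de * (H.h01.r : ℂ)) + (dk * (H.h02.r : ℂ))) + (H.h00.r : ℂ) : ℂ) (rfl)
  have hs75 := hs74 ((((((((H.h40.r : ℂ) * z) + (H.h30.r : ℂ)) * z) + (((de * (H.h21.r : ℂ)) + (dk * (H.h22.r : ℂ))) + (H.h20.r : ℂ))) * z) + (((de * (H.h11.r : ℂ)) + (dk * (H.h12.r : ℂ))) + (H.h10.r : ℂ))) * z : ℂ) (rfl)
  obtain ⟨h, hz76⟩ : ∃ v : ℂ, v = ((((((((H.h40.r : ℂ) * z) + (H.h30.r : ℂ)) * z) + (((de * (H.h21.r : ℂ)) + (dk * (H.h22.r : ℂ))) + (H.h20.r : ℂ))) * z) + (((de * (H.h11.r : ℂ)) + (dk * (H.h12.r : ℂ))) + (H.h10.r : ℂ))) * z) + (((de * (H.h01.r : ℂ)) + (dk * (H.h02.r : ℂ))) + (H.h00.r : ℂ)) := ⟨_, rfl⟩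
  have hs76 := hs75 h (hz76)
  have hs77 := hs76 (u * (H.b2.r : ℂ) : ℂ) ((mul_comm _ _).trans (congrArg (· * _) ((RC.z_val _).symm)))
  have hs78 := hs77 ((H.b1.r : ℂ) : ℂ) ((RC.z_val _).symm)
  have hs79 := hs78 ((u * (H.b2.r : ℂ)) + (H.b1.r : ℂ) : ℂ) (rfl)
  have hs80 := hs79 (((u * (H.b2.r : ℂ)) + (H.b1.r : ℂ)) * u : ℂ) (rfl)
  have hs81 := hs80 (de * (H.be.r : ℂ) : ℂ) ((mul_comm _ _).trans (congrArg (· * _) ((RC.z_val _).symm)))
  have hs82 := hs81 (dk * (H.bk.r : ℂ) : ℂ) ((mul_comm _ _).trans (congrArg (· * _) ((RC.z_val _).symm)))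
  have hs83 := hs82 ((de * (H.be.r : ℂ)) + (dk * (H.bk.r : ℂ)) : ℂ) (rfl)
  have hs84 := hs83 ((H.b0.r : ℂ) : ℂ) ((RC.z_val _).symm)
  have hs85 := hs84 (((de * (H.be.r : ℂ)) + (dk * (H.bk.r : ℂ))) + (H.b0.r : ℂ) : ℂ) (rfl)
  obtain ⟨g, hz86⟩ : ∃ v : ℂ, v = (((u * (H.b2.r : ℂ)) + (H.b1.r : ℂ)) * u) + (((de * (H.be.r : ℂ)) + (dk * (H.bk.r : ℂ))) + (H.b0.r : ℂ)) := ⟨_, rfl⟩
  have hs86 := hs85 g (hz86)
  obtain ⟨r1, hz87⟩ : ∃ v : ℂ, v = g * u := ⟨_, rfl⟩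
  have hs87 := hs86 r1 (hz87)
  have hs88 := hs87 (e * k : ℂ) (rfl)
  obtain ⟨hk, hz89⟩ : ∃ v : ℂ, v = (e * k) * (1 / 2) := ⟨_, rfl⟩
  have hs89 := hs88 hk (hz89.trans ((mul_comm _ _).trans (congrArg (· * _) (spec_const 549755813888 0 0 0 (by simp; norm_num)))))
  have hs90 := hs89 (Complex.exp hk : ℂ) (rfl)
  have hs91 := hs90 (-hk : ℂ) (rfl)
  have hs92 := hs91 (Complex.exp (-hk) : ℂ) (rfl)
  have hs93 := hs92 ((Complex.exp hk) + (Complex.exp (-hk)) : ℂ) (rfl)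
  have hs94 := hs93 (((Complex.exp hk) + (Complex.exp (-hk))) * (1 / 2) : ℂ) ((mul_comm _ _).trans (congrArg (· * _) (spec_const 549755813888 0 0 0 (by simp; norm_num))))
  obtain ⟨hn95, hr95⟩ := hs94
  obtain ⟨lch, hz95⟩ : ∃ v : ℂ, v = Complex.log (((Complex.exp hk) + (Complex.exp (-hk))) * (1 / 2)) := ⟨_, rfl⟩
  have hs95 := hr95 lch (hz95)
  have hs96 := hs95 (e * mp : ℂ) (rfl)
  obtain ⟨hp, hz97⟩ : ∃ v : ℂ, v = (e * mp) * (1 / 2) := ⟨_, rfl⟩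
  have hs97 := hs96 hp (hz97.trans ((mul_comm _ _).trans (congrArg (· * _) (spec_const 549755813888 0 0 0 (by simp; norm_num)))))
  have hs98 := hs97 (Complex.exp hp : ℂ) (rfl)
  have hs99 := hs98 (-hp : ℂ) (rfl)
  have hs100 := hs99 (Complex.exp (-hp) : ℂ) (rfl)
  have hs101 := hs100 ((Complex.exp hp) + (Complex.exp (-hp)) : ℂ) (rfl)
  have hs102 := hs101 (((Complex.exp hp) + (Complex.exp (-hp))) * (1 / 2) : ℂ) ((mul_comm _ _).trans (congrArg (· * _) (spec_const 549755813888 0 0 0 (by simp; norm_num))))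
  obtain ⟨hn103, hr103⟩ := hs102
  obtain ⟨l0, hz103⟩ : ∃ v : ℂ, v = Complex.log (((Complex.exp hp) + (Complex.exp (-hp))) * (1 / 2)) := ⟨_, rfl⟩
  have hs103 := hr103 l0 (hz103)
  have hs104 := hs103 (lch - l0 : ℂ) (rfl)
  obtain ⟨t0, hz105⟩ : ∃ v : ℂ, v = twe * (lch - l0) := ⟨_, rfl⟩
  have hs105 := hs104 t0 (hz105)
  have hs106 := hs105 (y0 * y0 : ℂ) (rfl)
  have hs107 := hs106 (u * 4 : ℂ) ((mul_comm _ _).trans (congrArg (· * _) (spec_const 4398046511104 0 0 0 (by simp; norm_num))))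
  have hs108 := hs107 ((y0 * y0) * (u * 4) : ℂ) (rfl)
  have hs109 := hs108 (((y0 * y0) * (u * 4)) * (z * Q) : ℂ) (rfl)
  obtain ⟨hn110, hr110⟩ := hs109
  have hs110 := hr110 (g⁻¹ : ℂ) (rfl)
  have hs111 := hs110 ((((y0 * y0) * (u * 4)) * (z * Q)) * g⁻¹ : ℂ) (rfl)
  obtain ⟨hq112, hs112⟩ := hs111
  have hp112 := hq112.trans_eq (spec_lt 10995115253 (10995115253 / 1099511627776) (by norm_num))
  have hs113 := hs112 ((5 / 4) : ℂ) (spec_const 1374389534720 0 0 0 (by simp; norm_num))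
  have hs114 := hs113 (g - (5 / 4) : ℂ) (rfl)
  obtain ⟨hq115, hs115⟩ := hs114
  have hp115 := hq115.trans_eq (spec_lt 109841211614 (54920605807 / 549755813888) (by norm_num))
  have hs116 := hs115 (e * (1 / 2) : ℂ) ((mul_comm _ _).trans (congrArg (· * _) (spec_const 549755813888 0 0 0 (by simp; norm_num))))
  have hs117 := hs116 ((e * (1 / 2)) * z : ℂ) (rfl)
  obtain ⟨bb, hz118⟩ : ∃ v : ℂ, v = 1 + ((e * (1 / 2)) * z) := ⟨_, rfl⟩
  have hs118 := hs117 bb (hz118)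
  have hs119 := hs118 (W0 * 2 : ℂ) ((mul_comm _ _).trans (congrArg (· * _) (spec_const 2199023255552 0 0 0 (by simp; norm_num))))
  have hs120 := hs119 ((W0 * 2) * h : ℂ) (rfl)
  have hs121 := hs120 (bb * bb : ℂ) (rfl)
  obtain ⟨hn122, hr122⟩ := hs121
  have hs122 := hr122 ((bb * bb)⁻¹ : ℂ) (rfl)
  have hs123 := hs122 (((W0 * 2) * h) * (bb * bb)⁻¹ : ℂ) (rfl)
  have hs124 := hs123 ((((W0 * 2) * h) * (bb * bb)⁻¹) - 1 : ℂ) (rfl)
  obtain ⟨hq125, hs125⟩ := hs124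
  have hp125 := hq125.trans_eq (spec_lt 87960929198 (43980464599 / 549755813888) (by norm_num))
  exact kont twe ek emk C om kk mp y0 z W0 u de dk Q v2 c1 h g r1 hk lch hp l0 t0 bb
    hn1 hz2 hz3 hz5 hz7 hz8 hz9 hz15 hz16 hz17 hz18 hz23 hz25 hz27 hz45 hz47 hz51 hz76 hz86 hz87 hz89 hn95 hz95 hz97 hn103 hz103 hz105 hn110 hp112 hp115 hz118 hn122 hp125

end Pool.Agent.helper82.WH
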