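import Pool.Agent.helper82.WH.Const

/-!
Generated: straight line programs of the W head, compiled forms and meaning.
-/

namespace Pool.Agent.helper82.WH

open Pool.Agent.helper31.IA (Z Op Asserts)
open Pool.Agent.helper31.IC (Ops runG)
open Pool.Agent.helper82.QB (opsQ)

def pK1 (H : HC) (B : BC) : List Op := [
  .exp 1,
  .neg 2,
  .exp 0,
  .add 2 0,
  .scale ⟨549755813888, 0, 0, 0⟩ 0,
  .mul 6 6,
  .scale B.B0.z 0,
  .const B.A0,
  .add 1 0,
  .const B.D0.z,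
  .sub 0 12,
  .mul 2 0,
  .exp 0,
  .neg 1,
  .exp 0,
  .add 2 0,
  .scale ⟨549755813888, 0, 0, 0⟩ 0,
  .sub 12 0,
  .const H.s2.z,
  .scale ⟨2199023255552, 0, 0, 0⟩ 1,
  .sub 1 0,
  .pos 0]

set_option maxRecDepth 100000 in
def cpK1 (H : HC) (B : BC) {α : Type} (cst : Z → α) (add sub mul : α → α → α) (scale : Z → α → α)
    (neg inv exp log : α → α) (ok : α → Bool) (isPos : Nat → α → Bool) (isLt : α → Nat → Bool) :
    List α → Bool
  | [e, k, x, X] =>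
  let v0 := exp k; ok v0 && (
  let v1 := neg k; ok v1 && (
  let v2 := exp v1; ok v2 && (
  let v3 := add v0 v2; ok v3 && (
  let v4 := scale ⟨549755813888, 0, 0, 0⟩ v3; ok v4 && (
  let v5 := mul k k; ok v5 && (
  let v6 := scale B.B0.z v5; ok v6 && (
  let v7 := cst B.A0; ok v7 && (
  let v8 := add v6 v7; ok v8 && (
  let v9 := cst B.D0.z; ok v9 && (
  let v10 := sub v9 x; ok v10 && (
  let v11 := mul v8 v10; ok v11 && (
  let v12 := exp v11; ok v12 && (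
  let v13 := neg v11; ok v13 && (
  let v14 := exp v13; ok v14 && (
  let v15 := add v12 v14; ok v15 && (
  let v16 := scale ⟨549755813888, 0, 0, 0⟩ v15; ok v16 && (
  let v17 := sub v4 v16; ok v17 && (
  let v18 := cst H.s2.z; ok v18 && (
  let v19 := scale ⟨2199023255552, 0, 0, 0⟩ v17; ok v19 && (
  let v20 := sub v18 v19; ok v20 && (
  isPos 3 v20 && (
  true))))))))))))))))))))))
  | _ => false

set_option maxRecDepth 1000000 in
theorem cpK1_eq (H : HC) (B : BC) (O : Ops) (m : List O.α)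
    (h : cpK1 H B O.cst O.add O.sub O.mul O.scale O.neg O.inv O.exp O.log O.ok O.isPos O.isLt m = true) :
    runG O 3 (pK1 H B) m = true := by
  match m, h with
  | [e, k, x, X], h => exact h

def qpK1 (H : HC) (B : BC) : List opsQ.α → Bool :=
  cpK1 H B opsQ.cst opsQ.add opsQ.sub opsQ.mul opsQ.scale opsQ.neg opsQ.inv opsQ.exp opsQ.log opsQ.ok
    opsQ.isPos opsQ.isLt

theorem qpK1_eq (H : HC) (B : BC) (m : List opsQ.α) (h : qpK1 H B m = true) : runG opsQ 3 (pK1 H B) m = true :=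
  cpK1_eq H B opsQ m h

theorem pK1_spec (H : HC) (B : BC) {e k x X : ℂ}
    (hyp : Asserts (pK1 H B) [e, k, x, X]) (Goal : Prop)
    (kont : ∀ C kk mp u : ℂ,
      C = ((Complex.exp k) + (Complex.exp (-k))) * (1 / 2) →
      kk = k * k →
      mp = ((kk * (B.B0.r : ℂ)) + B.A0.val) * ((B.D0.r : ℂ) - x) →
      u = C - (((Complex.exp mp) + (Complex.exp (-mp))) * (1 / 2)) →
      0 < ((H.s2.r : ℂ) - (u * 2)).re → Goal) : Goal := by
  have hs0 := hyp (Complex.exp k : ℂ) (rfl)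
  have hs1 := hs0 (-k : ℂ) (rfl)
  have hs2 := hs1 (Complex.exp (-k) : ℂ) (rfl)
  have hs3 := hs2 ((Complex.exp k) + (Complex.exp (-k)) : ℂ) (rfl)
  obtain ⟨C, hz4⟩ : ∃ v : ℂ, v = ((Complex.exp k) + (Complex.exp (-k))) * (1 / 2) := ⟨_, rfl⟩
  have hs4 := hs3 C (hz4.trans ((mul_comm _ _).trans (congrArg (· * _) (spec_const 549755813888 0 0 0 (by simp; norm_num)))))
  obtain ⟨kk, hz5⟩ : ∃ v : ℂ, v = k * k := ⟨_, rfl⟩
  have hs5 := hs4 kk (hz5)
  have hs6 := hs5 (kk * (B.B0.r : ℂ) : ℂ) ((mul_comm _ _).trans (congrArg (· * _) ((RC.z_val _).symm)))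
  have hs7 := hs6 (B.A0.val : ℂ) ((rfl).symm)
  have hs8 := hs7 ((kk * (B.B0.r : ℂ)) + B.A0.val : ℂ) (rfl)
  have hs9 := hs8 ((B.D0.r : ℂ) : ℂ) ((RC.z_val _).symm)
  have hs10 := hs9 ((B.D0.r : ℂ) - x : ℂ) (rfl)
  obtain ⟨mp, hz11⟩ : ∃ v : ℂ, v = ((kk * (B.B0.r : ℂ)) + B.A0.val) * ((B.D0.r : ℂ) - x) := ⟨_, rfl⟩
  have hs11 := hs10 mp (hz11)
  have hs12 := hs11 (Complex.exp mp : ℂ) (rfl)
  have hs13 := hs12 (-mp : ℂ) (rfl)
  have hs14 := hs13 (Complex.exp (-mp) : ℂ) (rfl)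
  have hs15 := hs14 ((Complex.exp mp) + (Complex.exp (-mp)) : ℂ) (rfl)
  have hs16 := hs15 (((Complex.exp mp) + (Complex.exp (-mp))) * (1 / 2) : ℂ) ((mul_comm _ _).trans (congrArg (· * _) (spec_const 549755813888 0 0 0 (by simp; norm_num))))
  obtain ⟨u, hz17⟩ : ∃ v : ℂ, v = C - (((Complex.exp mp) + (Complex.exp (-mp))) * (1 / 2)) := ⟨_, rfl⟩
  have hs17 := hs16 u (hz17)
  have hs18 := hs17 ((H.s2.r : ℂ) : ℂ) ((RC.z_val _).symm)
  have hs19 := hs18 (u * 2 : ℂ) ((mul_comm _ _).trans (congrArg (· * _) (spec_const 2199023255552 0 0 0 (by simp; norm_num))))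
  have hs20 := hs19 ((H.s2.r : ℂ) - (u * 2) : ℂ) (rfl)
  obtain ⟨hp21, hs21⟩ := hs20
  exact kont C kk mp u
    hz4 hz5 hz11 hz17 hp21

end Pool.Agent.helper82.WH
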