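import Pool.Agent.helper82.WH.Const

/-!
Generated: straight line programs of the W head, compiled forms and meaning.
-/

namespace Pool.Agent.helper82.WH

open Pool.Agent.helper31.IA (Z Op Asserts)
open Pool.Agent.helper31.IC (Ops runG)
open Pool.Agent.helper82.QB (opsQ)

def pX0 : List Op := [
  .inv 0,
  .scale ⟨2199023255552, 0, 0, 0⟩ 0,
  .mul 2 3,
  .scale ⟨549755813888, 0, 0, 0⟩ 0,
  .exp 0,
  .neg 1,
  .exp 0,
  .add 2 0,
  .scale ⟨549755813888, 0, 0, 0⟩ 0,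
  .log 0,
  .exp 11,
  .neg 12,
  .exp 0,
  .add 2 0,
  .scale ⟨549755813888, 0, 0, 0⟩ 0,
  .const ⟨1099511627776, 0, 0, 0⟩,
  .sub 1 0,
  .const ⟨2199023255552, 0, 0, 0⟩,
  .log 0,
  .scale ⟨2199023255552, 0, 0, 0⟩ 2,
  .mul 18 10,
  .neg 0,
  .exp 0,
  .mul 3 0,
  .add 0 8,
  .mul 23 6,
  .exp 0,
  .sub 2 0,
  .pos 0]

set_option maxRecDepth 100000 in
def cpX0 {α : Type} (cst : Z → α) (add sub mul : α → α → α) (scale : Z → α → α)
    (neg inv exp log : α → α) (ok : α → Bool) (isPos : Nat → α → Bool) (isLt : α → Nat → Bool) :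
    List α → Bool
  | [e, k, x] =>
  let v0 := inv e; ok v0 && (
  let v1 := scale ⟨2199023255552, 0, 0, 0⟩ v0; ok v1 && (
  let v2 := mul e k; ok v2 && (
  let v3 := scale ⟨549755813888, 0, 0, 0⟩ v2; ok v3 && (
  let v4 := exp v3; ok v4 && (
  let v5 := neg v3; ok v5 && (
  let v6 := exp v5; ok v6 && (
  let v7 := add v4 v6; ok v7 && (
  let v8 := scale ⟨549755813888, 0, 0, 0⟩ v7; ok v8 && (
  let v9 := log v8; ok v9 && (
  let v10 := exp k; ok v10 && (
  let v11 := neg k; ok v11 && (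
  let v12 := exp v11; ok v12 && (
  let v13 := add v10 v12; ok v13 && (
  let v14 := scale ⟨549755813888, 0, 0, 0⟩ v13; ok v14 && (
  let v15 := cst ⟨1099511627776, 0, 0, 0⟩; ok v15 && (
  let v16 := sub v14 v15; ok v16 && (
  let v17 := cst ⟨2199023255552, 0, 0, 0⟩; ok v17 && (
  let v18 := log v17; ok v18 && (
  let v19 := scale ⟨2199023255552, 0, 0, 0⟩ v16; ok v19 && (
  let v20 := mul v1 v9; ok v20 && (
  let v21 := neg v20; ok v21 && (
  let v22 := exp v21; ok v22 && (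
  let v23 := mul v19 v22; ok v23 && (
  let v24 := add v23 v15; ok v24 && (
  let v25 := mul v1 v18; ok v25 && (
  let v26 := exp v25; ok v26 && (
  let v27 := sub v24 v26; ok v27 && (
  isPos 3 v27 && (
  true)))))))))))))))))))))))))))))
  | _ => false

set_option maxRecDepth 1000000 in
theorem cpX0_eq (O : Ops) (m : List O.α)
    (h : cpX0 O.cst O.add O.sub O.mul O.scale O.neg O.inv O.exp O.log O.ok O.isPos O.isLt m = true) :
    runG O 3 pX0 m = true := by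
  match m, h with
  | [e, k, x], h => exact h

def qpX0 : List opsQ.α → Bool :=
  cpX0 opsQ.cst opsQ.add opsQ.sub opsQ.mul opsQ.scale opsQ.neg opsQ.inv opsQ.exp opsQ.log opsQ.ok
    opsQ.isPos opsQ.isLt

theorem qpX0_eq (m : List opsQ.α) (h : qpX0 m = true) : runG opsQ 3 pX0 m = true :=
  cpX0_eq opsQ m h

theorem pX0_spec {e k x : ℂ}
    (hyp : Asserts pX0 [e, k, x]) (Goal : Prop)
    (kont : ∀ twe hk lch om : ℂ,
      e ≠ 0 →
      twe = e⁻¹ * 2 →
      hk = (e * k) * (1 / 2) →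
      (((Complex.exp hk) + (Complex.exp (-hk))) * (1 / 2)) ∈ Complex.slitPlane →
      lch = Complex.log (((Complex.exp hk) + (Complex.exp (-hk))) * (1 / 2)) →
      om = (((Complex.exp k) + (Complex.exp (-k))) * (1 / 2)) - 1 →
      2 ∈ Complex.slitPlane →
      0 < ((((om * 2) * (Complex.exp (-(twe * lch)))) + 1) - (Complex.exp (twe * (Complex.log 2)))).re → Goal) : Goal := by
  obtain ⟨hn0, hr0⟩ := hyp
  have hs0 := hr0 (e⁻¹ : ℂ) (rfl)
  obtain ⟨twe, hz1⟩ : ∃ v : ℂ, v = e⁻¹ * 2 := ⟨_, rfl⟩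
  have hs1 := hs0 twe (hz1.trans ((mul_comm _ _).trans (congrArg (· * _) (spec_const 2199023255552 0 0 0 (by simp; norm_num)))))
  have hs2 := hs1 (e * k : ℂ) (rfl)
  obtain ⟨hk, hz3⟩ : ∃ v : ℂ, v = (e * k) * (1 / 2) := ⟨_, rfl⟩
  have hs3 := hs2 hk (hz3.trans ((mul_comm _ _).trans (congrArg (· * _) (spec_const 549755813888 0 0 0 (by simp; norm_num)))))
  have hs4 := hs3 (Complex.exp hk : ℂ) (rfl)
  have hs5 := hs4 (-hk : ℂ) (rfl)
  have hs6 := hs5 (Complex.exp (-hk) : ℂ) (rfl)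
  have hs7 := hs6 ((Complex.exp hk) + (Complex.exp (-hk)) : ℂ) (rfl)
  have hs8 := hs7 (((Complex.exp hk) + (Complex.exp (-hk))) * (1 / 2) : ℂ) ((mul_comm _ _).trans (congrArg (· * _) (spec_const 549755813888 0 0 0 (by simp; norm_num))))
  obtain ⟨hn9, hr9⟩ := hs8
  obtain ⟨lch, hz9⟩ : ∃ v : ℂ, v = Complex.log (((Complex.exp hk) + (Complex.exp (-hk))) * (1 / 2)) := ⟨_, rfl⟩
  have hs9 := hr9 lch (hz9)
  have hs10 := hs9 (Complex.exp k : ℂ) (rfl)
  have hs11 := hs10 (-k : ℂ) (rfl)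
  have hs12 := hs11 (Complex.exp (-k) : ℂ) (rfl)
  have hs13 := hs12 ((Complex.exp k) + (Complex.exp (-k)) : ℂ) (rfl)
  have hs14 := hs13 (((Complex.exp k) + (Complex.exp (-k))) * (1 / 2) : ℂ) ((mul_comm _ _).trans (congrArg (· * _) (spec_const 549755813888 0 0 0 (by simp; norm_num))))
  have hs15 := hs14 (1 : ℂ) (spec_const 1099511627776 0 0 0 (by simp; norm_num))
  obtain ⟨om, hz16⟩ : ∃ v : ℂ, v = (((Complex.exp k) + (Complex.exp (-k))) * (1 / 2)) - 1 := ⟨_, rfl⟩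
  have hs16 := hs15 om (hz16)
  have hs17 := hs16 (2 : ℂ) (spec_const 2199023255552 0 0 0 (by simp; norm_num))
  obtain ⟨hn18, hr18⟩ := hs17
  have hs18 := hr18 (Complex.log 2 : ℂ) (rfl)
  have hs19 := hs18 (om * 2 : ℂ) ((mul_comm _ _).trans (congrArg (· * _) (spec_const 2199023255552 0 0 0 (by simp; norm_num))))
  have hs20 := hs19 (twe * lch : ℂ) (rfl)
  have hs21 := hs20 (-(twe * lch) : ℂ) (rfl)
  have hs22 := hs21 (Complex.exp (-(twe * lch)) : ℂ) (rfl)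
  have hs23 := hs22 ((om * 2) * (Complex.exp (-(twe * lch))) : ℂ) (rfl)
  have hs24 := hs23 (((om * 2) * (Complex.exp (-(twe * lch)))) + 1 : ℂ) (rfl)
  have hs25 := hs24 (twe * (Complex.log 2) : ℂ) (rfl)
  have hs26 := hs25 (Complex.exp (twe * (Complex.log 2)) : ℂ) (rfl)
  have hs27 := hs26 ((((om * 2) * (Complex.exp (-(twe * lch)))) + 1) - (Complex.exp (twe * (Complex.log 2))) : ℂ) (rfl)
  obtain ⟨hp28, hs28⟩ := hs27
  exact kont twe hk lch om
    hn0 hz1 hz3 hn9 hz9 hz16 hn18 hp28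

end Pool.Agent.helper82.WH
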