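import Pool.Agent.helper82.WH.Head
import Pool.Agent.helper82.QB.Inst

/-!
# W head: constants of the pieces
-/

namespace Pool.Agent.helper82.WH

open Complex
open Pool.Agent.helper31.IA (Z)

def RC.zi (c : RC) : Z := ⟨0, 0, c.a, c.b⟩

theorem RC.zi_val (c : RC) : c.zi.val = (c.r : ℂ) * I := by
  simp [RC.zi, RC.r, Pool.Agent.helper31.IA.Z.val]

/-- The constants of a piece of a cell.  `p = -(B0 κ² + A0)(D0 - x)`. -/
structure BC where
  A0 : Z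
  B0 : RC
  D0 : RC
  tA : Nat
  tD : Nat
  tG : Nat
  tT : Nat
  V : Nat
  dd : Nat
  be2 : Nat
  mu : Nat
  pa : RC
  pb : RC
  rho : RC
  K1 : RC
  K2 : RC

theorem spec_const (a b c d : Nat) {z : ℂ}
    (h : ((((a : ℝ) - b) / 2 ^ 40 : ℝ) : ℂ) + ((((c : ℝ) - d) / 2 ^ 40 : ℝ) : ℂ) * Complex.I = z) :
    z = (Z.mk a b c d).val := h.symm

theorem spec_lt (B : Nat) (q : ℝ) (h : ((B : ℕ) : ℝ) / 2 ^ 40 = q) :
    ((B : ℕ) : ℝ) / 2 ^ 40 = q := h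

end Pool.Agent.helper82.WH
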