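import Pool.Agent.helper82.WH.PAD
import Pool.Agent.helper82.WH.PG
import Pool.Agent.helper82.WH.PRT
import Pool.Agent.helper82.WH.PRS
import Pool.Agent.helper82.WH.PTT
import Pool.Agent.helper82.WH.PK0
import Pool.Agent.helper82.WH.PK1
import Pool.Agent.helper82.WH.PX0
import Pool.Agent.helper82.WH.PX1
import Pool.Agent.helper82.WH.PH
import Pool.Agent.helper82.WH.PJ0

/-!
# W head: lists of compiled programs
-/

namespace Pool.Agent.helper82.WH

open Pool.Agent.helper31.IA (Z Op Asserts)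
open Pool.Agent.helper31.IC (Ops runG)
open Pool.Agent.helper82.QB (opsQ)

/-- `chks` are compiled forms of `progs` -/
def FC (progs : List (List Op)) (chks : List (List opsQ.α → Bool)) : Prop :=
  List.Forall₂ (fun (ops : List Op) (chk : List opsQ.α → Bool) =>
    ∀ m, chk m = true → runG opsQ 3 ops m = true) progs chks

variable (H : HC) (B : BC)

theorem fAD : FC [pAD H B] [qpAD H B] := .cons (qpAD_eq H B) .nil
theorem fG : FC [pG H B] [qpG H B] := .cons (qpG_eq H B) .nil
theorem fRT : FC [pRT H B] [qpRT H B] := .cons (qpRT_eq H B) .nil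
theorem fRS : FC [pRS H B] [qpRS H B] := .cons (qpRS_eq H B) .nil
theorem fTT : FC [pTT H B] [qpTT H B] := .cons (qpTT_eq H B) .nil
theorem fH : FC [pH H B] [qpH H B] := .cons (qpH_eq H B) .nil
theorem fX : FC [pX0] [qpX0] := .cons qpX0_eq .nil
theorem fHJ : FC [pH H B, pJ0 H B] [qpH H B, qpJ0 H B] :=
  .cons (qpH_eq H B) (.cons (qpJ0_eq H B) .nil)

theorem fADK : FC [pAD H B, pK0 H B] [qpAD H B, qpK0 H B] :=
  .cons (qpAD_eq H B) (.cons (qpK0_eq H B) .nil)
theorem fGK : FC [pG H B, pK1 H B] [qpG H B, qpK1 H B] :=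
  .cons (qpG_eq H B) (.cons (qpK1_eq H B) .nil)
theorem fRTK : FC [pRT H B, pK1 H B] [qpRT H B, qpK1 H B] :=
  .cons (qpRT_eq H B) (.cons (qpK1_eq H B) .nil)

theorem fADX : FC [pAD H B, pX0] [qpAD H B, qpX0] :=
  .cons (qpAD_eq H B) (.cons qpX0_eq .nil)
theorem fGX : FC [pG H B, pX1] [qpG H B, qpX1] :=
  .cons (qpG_eq H B) (.cons qpX1_eq .nil)
theorem fRTX : FC [pRT H B, pX1] [qpRT H B, qpX1] :=
  .cons (qpRT_eq H B) (.cons qpX1_eq .nil)
theorem fRSX : FC [pRS H B, pX1] [qpRS H B, qpX1] :=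
  .cons (qpRS_eq H B) (.cons qpX1_eq .nil)
theorem fTTX : FC [pTT H B, pX1] [qpTT H B, qpX1] :=
  .cons (qpTT_eq H B) (.cons qpX1_eq .nil)

open Pool.Agent.helper31.IC (CovD TD verifyD)
open Pool.Agent.helper82.QB (okQ)

/-- coverage from a tree -/
theorem cov_of {nd : Nat} {progs : List (List Op)} {chks : List (List opsQ.α → Bool)}
    (hf : FC progs chks) (t : TD) (box : List (Nat × Nat)) (hb : box.length = 3)
    (h : verifyD opsQ okQ nd chks t box = true) : CovD nd progs box :=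
  Pool.Agent.helper82.QB.covD_Q hf t box hb h

end Pool.Agent.helper82.WH
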