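import Pool.Agent.helper63.EQC.AsmDefs
import Pool.Agent.helper4.EQW.Step

/-!
# W head: semantic interface between the machine certificates and the assembly

For fixed `e κ`, head functions `H`, a start parameter `p` and `w = c1 p + r1 p * X`:
`W2 = 2C - Y1`, `E0 w = FW Y1 d1 0`, `E1`, `E2` its first and second derivative in `w`.
The structures `PAD`, `PG`, `PRT` are what the certificates deliver at one `p`.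
-/

namespace Pool.Agent.helper82.WH

open Complex Pool.Agent.helper31.EQ.W Pool.Agent.helper63.EQC
open Pool.Agent.helper4.EQW (KK rT nx gK v2 G1)

noncomputable section

/-- `(1 + w^(-e))/2` -/
def m1 (e : ℝ) (w : ℂ) : ℂ := (1 + w ^ (-(e : ℂ))) / 2

/-- `μ = w^(-e)/m1 = 2 - 1/m1`; `(c² γ)'(w) = c² γ(w) μ / w` -/
def mu (e : ℝ) (w : ℂ) : ℂ := 2 - (m1 e w)⁻¹

/-- `G = c² γ` -/
def GG (e κ : ℝ) (w : ℂ) : ℂ := (c2 e κ : ℂ) * gl e w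

/-- `W2 = 2C - Y1` -/
def W2 (e κ : ℝ) (p w : ℂ) : ℂ := 2 * (Real.cosh κ : ℂ) - Y1B e κ p w

/-- `zo = ζ1 - (C - 1) = (ζ0 + C - 1)/w` -/
def zo (e κ : ℝ) (p w : ℂ) : ℂ := (z0B e κ p w + ((Real.cosh κ : ℂ) - 1)) * w⁻¹

/-- domain facts at `w` -/
structure Dom (e κ : ℝ) (p w : ℂ) : Prop where
  w_slit : w ∈ slitPlane
  m_slit : m1 e w ∈ slitPlane
  W_slit : W2 e κ p w ∈ slitPlane
  mW_slit : m1 e (W2 e κ p w) ∈ slitPlane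

/-- law of link `1` with `d2 = 0` -/
def E0 (e κ : ℝ) (p w : ℂ) : ℂ := FW e κ (Y1B e κ p w) (d1B e κ p w) 0

/-- derivative of `E0` in `w` -/
def E1 (e κ : ℝ) (p w : ℂ) : ℂ :=
  w⁻¹ * ((GG e κ (W2 e κ p w) * mu e (W2 e κ p w) * (W2 e κ p w)⁻¹ - 2) *
    (GG e κ w * w⁻¹ * mu e w / 2 - zo e κ p w) - w⁻¹ * (GG e κ w * w⁻¹) * (mu e w - 2))

/-- second derivative of `E0` in `w` -/
def E2 (e κ : ℝ) (p w : ℂ) : ℂ :=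
  (w⁻¹ * w⁻¹) *
    (GG e κ (W2 e κ p w) * mu e (W2 e κ p w) * (W2 e κ p w)⁻¹ *
        ((e / 2 + 1) * mu e (W2 e κ p w) - (e + 1)) * (W2 e κ p w)⁻¹ *
        ((GG e κ w * w⁻¹ * mu e w / 2 - zo e κ p w) * (GG e κ w * w⁻¹ * mu e w / 2 - zo e κ p w)) +
      (GG e κ (W2 e κ p w) * mu e (W2 e κ p w) * (W2 e κ p w)⁻¹ - 2) *
        (GG e κ w * w⁻¹ * mu e w * (((e / 2 + 1) * mu e w - (e + 1)) - 2) / 2 + 2 * zo e κ p w) -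
      w⁻¹ * (GG e κ w * w⁻¹) * (mu e w * (((e / 2 + 1) * mu e w - (e + 1)) - 4) + 6))

variable (e κ : ℝ) (H : HeadFn) (p : ℂ)

/-- program A, D at `w = c1 p` -/
structure PAD (tA tD : ℝ) : Prop where
  cosh_slit : cosh (e * p / 2) ∈ slitPlane
  hr_ne : H.h p * H.r1 p ≠ 0
  dom : Dom e κ p (H.c1 p)
  A : ‖E0 e κ p (H.c1 p) * (H.h p * H.r1 p)⁻¹‖ < tA
  D : ‖1 - E1 e κ p (H.c1 p) * (H.h p)⁻¹‖ < tD

/-- program G on the disc -/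
structure PG (tG : ℝ) : Prop where
  dom : ∀ X : ℂ, ‖X‖ ≤ 1 → Dom e κ p (H.c1 p + H.r1 p * X)
  G : ∀ X : ℂ, ‖X‖ ≤ 1 →
    ‖E2 e κ p (H.c1 p + H.r1 p * X) * H.r1 p / 2 * (H.h p)⁻¹‖ < tG

/-- program R, T on the disc: region of `Y1`, radius and effect of `d2` -/
structure PRT (V tT dd be mm : ℝ) : Prop where
  dom : ∀ X : ℂ, ‖X‖ ≤ 1 → Dom e κ p (H.c1 p + H.r1 p * X)
  w_norm : ∀ X : ℂ, ‖X‖ ≤ 1 → 1 < ‖H.c1 p + H.r1 p * X‖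
  reg : ∀ X : ℂ, ‖X‖ ≤ 1 → ∀ P, P = nx κ (Y1B e κ p (H.c1 p + H.r1 p * X)) →
    ‖P - ((Real.exp (-κ) : ℝ) : ℂ)‖ < Real.exp (-(4 * κ)) * ‖P - ((Real.exp κ : ℝ) : ℂ)‖ ∧
    ‖v2 κ P‖ < V
  Y_ne : ∀ X : ℂ, ‖X‖ ≤ 1 →
    Y1B e κ p (H.c1 p + H.r1 p * X) ≠ ((Real.exp (-κ) : ℝ) : ℂ)
  T : ∀ X : ℂ, ‖X‖ ≤ 1 → ∀ w, w = H.c1 p + H.r1 p * X →
    ‖rT e κ (Y1B e κ p w) * (GG e κ (W2 e κ p w) * mu e (W2 e κ p w)) *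
      (H.h p * H.r1 p)⁻¹‖ < tT
  d : ∀ X : ℂ, ‖X‖ ≤ 1 → ‖rT e κ (Y1B e κ p (H.c1 p + H.r1 p * X))‖ < dd
  b : ∀ X : ℂ, ‖X‖ ≤ 1 → ∀ w, w = H.c1 p + H.r1 p * X →
    ‖(e / 2 + 1) * mu e (W2 e κ p w) - (e - 1)‖ < be
  m : ∀ X : ℂ, ‖X‖ ≤ 1 → ‖mu e (W2 e κ p (H.c1 p + H.r1 p * X))‖ < mm

/-- `w` at a solution: the disc of program Test -/
def wtest (rho : ℝ) (X : ℂ) : ℂ :=
  H.c1 p - E0 e κ p (H.c1 p) * (H.h p)⁻¹ + (rho : ℂ) * (H.r1 p * X)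

/-- test at `p = i α` -/
def PTI (rho : ℝ) : Prop := ∀ X : ℂ, ‖X‖ ≤ 1 →
  0 < (exp (p / 2) * d0B e κ p (wtest e κ H p rho X)).re

/-- test at `p = δ` -/
def PTP (rho : ℝ) : Prop := ∀ X : ℂ, ‖X‖ ≤ 1 →
  0 < (z0B e κ p (wtest e κ H p rho X) - ((Real.cosh κ : ℂ) - 1)).re

/-- test at `p = -δ` -/
def PTM (rho : ℝ) : Prop := ∀ X : ℂ, ‖X‖ ≤ 1 →
  0 < (((Real.cosh κ : ℂ) - 1) - z0B e κ p (wtest e κ H p rho X)).re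

end

end Pool.Agent.helper82.WH
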